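import Pool.Agent.Helper330.DPF.P_holds
import Pool.Agent.Helper330.DPF.P_omegaOne
import Pool.Agent.Helper330.DPF.P_existsDec
import Pool.Agent.Helper330.DPF.P_botCond
import Pool.Agent.Helper330.DPK.P_dpKF
import Pool.Agent.Helper330.DPK.P_main_
import Pool.Agent.Helper330.DPK.Coh

/-!
It is consistent with ZFC that there is a linearly ordered compact space `K` such that `C_p(K)`
maps continuously onto a nonmetrizable compact space.

(1) Some notion of forcing preserves `ω₁` and forces the principle `◊⁺` (`DiamondPlus`).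
(2) `DiamondPlus` implies that there is such a space `K`.
-/

namespace Pool.Agent.Results.MP_f54944_gt.ConsistentlyNot

open Pool.Agent.Helper330.DPF

theorem result :
    (∃ (P : Type) (_ : Preorder P), Nonempty P ∧ ∀ p : P,
      p ∈ OmegaOnePreserved P ∧ p ∈ DiamondPlusHolds P) ∧
    (DiamondPlus →
      ∃ (K : Type) (_ : LinearOrder K) (_ : TopologicalSpace K) (_ : OrderTopology K)
        (_ : CompactSpace K) (Y : Type) (_ : TopologicalSpace Y) (_ : CompactSpace Y)
        (_ : T2Space Y) (f : {g : K → ℝ // Continuous g} → Y),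
        Continuous f ∧ Function.Surjective f ∧ ¬ TopologicalSpace.MetrizableSpace Y) := by
  obtain ⟨D, hD⟩ := existsDec
  refine ⟨⟨PD D, inferInstance, botCond D, fun p => ⟨omegaOne p, holds hD p⟩⟩, fun h => ?_⟩
  exact Pool.Agent.Helper330.DPK.main_ (Pool.Agent.Helper330.DPK.dpKF
    Pool.Agent.Helper330.DPK.Coh.cg Pool.Agent.Helper330.DPK.Coh.cg_fin
    Pool.Agent.Helper330.DPK.Coh.cg_coh h)

end Pool.Agent.Results.MP_f54944_gt.ConsistentlyNot
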