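import Mathlib
import Pool.Agent.Helper425.LA.Lots

set_option autoImplicit false

namespace Pool.Agent.Results.MP_f54944_gt.DedYes

/-- (1) In ZFC, if `K` is a compact linearly ordered space such that `|cl A| ^ ℵ₀ < 2 ^ ℵ₁` (and
`𝔠 < 2 ^ ℵ₁`) for every `A ⊆ K` of size at most `ℵ₁`, then every compact Hausdorff continuous image
of `C_p(K)` is metrizable.
(2) If `(ded ℵ₁) ^ ℵ₀ < 2 ^ ℵ₁`, that is, if every linear order `L` with a set `D` of size at most
`ℵ₁` meeting every closed interval with distinct endpoints satisfies `|L| ^ ℵ₀ < 2 ^ ℵ₁`, then for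
EVERY compact linearly ordered space `K` every compact Hausdorff continuous image of `C_p(K)` is
metrizable. -/
theorem result :
    (∀ (K : Type) [LinearOrder K] [TopologicalSpace K] [OrderTopology K] [CompactSpace K],
      (∀ A : Set K, Cardinal.mk A ≤ Cardinal.aleph 1 → ∃ κ : Cardinal.{0},
        Cardinal.continuum ≤ κ ∧ Cardinal.mk (closure A) ≤ κ ∧
          κ ^ Cardinal.aleph0.{0} < 2 ^ Cardinal.aleph.{0} 1) →
      ∀ (Y : Type) [TopologicalSpace Y] [CompactSpace Y] [T2Space Y]
        (f : {g : K → ℝ // Continuous g} → Y),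
        Continuous f → Function.Surjective f → TopologicalSpace.MetrizableSpace Y) ∧
    ((∀ (L : Type) [LinearOrder L] (D : Set L), Cardinal.mk D ≤ Cardinal.aleph 1 →
        (∀ x y : L, x < y → ∃ d ∈ D, x ≤ d ∧ d ≤ y) →
        Cardinal.mk L ^ Cardinal.aleph0.{0} < 2 ^ Cardinal.aleph.{0} 1) →
      ∀ (K : Type) [LinearOrder K] [TopologicalSpace K] [OrderTopology K] [CompactSpace K]
        (Y : Type) [TopologicalSpace Y] [CompactSpace Y] [T2Space Y]
        (f : {g : K → ℝ // Continuous g} → Y),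
        Continuous f → Function.Surjective f → TopologicalSpace.MetrizableSpace Y) :=
  ⟨fun K _ _ _ _ hK Y _ _ _ f hf hs => Pool.Agent.Helper425.LA.main_pow K hK Y f hf hs,
    fun hH K _ _ _ _ Y _ _ _ f hf hs => Pool.Agent.Helper425.LA.main_lots hH K Y f hf hs⟩

end Pool.Agent.Results.MP_f54944_gt.DedYes
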