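import Mathlib
import Pool.Agent.Helper937.Dya8

set_option autoImplicit false

open Set Topology

namespace Pool.Agent.Results.MP_f54944_gt.DoubleGaps

/-- Compact continuous images of `C_p(K)` are metrizable for every linearly ordered compact space
`K` in which sets of size at most `ℵ₁` have at most `ℵ₁` gaps with both sides of uncountable
character. -/
theorem result (K : Type) [LinearOrder K] [TopologicalSpace K] [OrderTopology K] [CompactSpace K]
    (hK : ∀ A : Set K, Cardinal.mk A ≤ Cardinal.aleph 1 →
      Cardinal.mk {p : K × K | p.1 < p.2 ∧ Ioo p.1 p.2 ∩ A = ∅ ∧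
        p.1 ∈ closure (A ∩ Iio p.1) ∧ p.2 ∈ closure (A ∩ Ioi p.2) ∧
        ¬ (𝓝[<] p.1).IsCountablyGenerated ∧ ¬ (𝓝[>] p.2).IsCountablyGenerated} ≤
        Cardinal.aleph 1)
    (Y : Type) [TopologicalSpace Y] [CompactSpace Y] [T2Space Y]
    (f : {g : K → ℝ // Continuous g} → Y) (hf : Continuous f) (hs : Function.Surjective f) :
    TopologicalSpace.MetrizableSpace Y :=
  Pool.Agent.Helper937.Dya.main_lots2 K hK Y f hf hs

end Pool.Agent.Results.MP_f54944_gt.DoubleGaps
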